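import Pool.Agent.H14R3.KK.Defs
import Pool.Agent.H14R3.KK.S.RHOA

/-! Task MUBD of project KK (MP_d47e08_pr). -/

set_option autoImplicit false
open MeasureTheory ProbabilityTheory Filter Topology

namespace KK14

theorem MUBD (q l : ℕ) (hq : 1 ≤ q) (hl : q ≤ l) :
    muN (2 * q) l ≤ ((200 * √((q.factorial : ℝ) * l / (q * l.choose q)) : ℝ) : EReal) := by
  apply le_of_forall_gt_imp_ge_of_dense
  intro a ha
  obtain ⟨x, hx1, hx2⟩ := EReal.lt_iff_exists_real_btwn.mp ha
  have hx : 200 * √((q.factorial : ℝ) * l / (q * l.choose q)) < x := EReal.coe_lt_coe_iff.mp hx1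
  refine le_trans (sInf_le ?_) hx2.le
  exact ⟨x, ⟨le_trans (by positivity) hx.le, RHOA q l hq hl x hx⟩, rfl⟩

namespace MUBDx

theorem bd (q l : ℕ) (hq : 2 ≤ q) (hl : 2 * q ≤ l) :
    (q.factorial : ℝ) * l / (q * l.choose q) ≤ 4 * (q.factorial : ℝ) ^ 2 / l := by
  have hc : 0 < l.choose q := Nat.choose_pos (by omega)
  have hcR : (0 : ℝ) < l.choose q := by exact_mod_cast hc
  have hqR : (2 : ℝ) ≤ q := by exact_mod_cast hq
  have hlR : (0 : ℝ) < l := by
    have : 0 < l := by omega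
    exact_mod_cast this
  have hf : (0 : ℝ) < q.factorial := by exact_mod_cast q.factorial_pos
  have h1 : (((l + 1 - q : ℕ) : ℝ)) ^ q ≤ (q.factorial : ℝ) * l.choose q := by
    have h0 := Nat.pow_le_choose (α := ℝ) q l
    rw [div_le_iff₀ hf] at h0
    rw [mul_comm]
    exact_mod_cast h0
  have h2 : (l : ℝ) / 2 ≤ ((l + 1 - q : ℕ) : ℝ) := by
    have h3 : l ≤ 2 * (l + 1 - q) := by omega
    have h4 : (l : ℝ) ≤ 2 * ((l + 1 - q : ℕ) : ℝ) := by exact_mod_cast h3
    linarith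
  have h5 : (1 : ℝ) ≤ ((l + 1 - q : ℕ) : ℝ) := by
    have h6 : 1 ≤ l + 1 - q := by omega
    exact_mod_cast h6
  have h7 : ((l : ℝ) / 2) ^ 2 ≤ (q.factorial : ℝ) * l.choose q :=
    le_trans (pow_le_pow_left₀ (by positivity) h2 2)
      (le_trans (pow_le_pow_right₀ h5 hq) h1)
  rw [div_le_div_iff₀ (by positivity) hlR]
  have h8 : (l : ℝ) * l ≤ 4 * ((q.factorial : ℝ) * l.choose q) := by nlinarith
  have h9 : (q.factorial : ℝ) * l.choose q ≤ q * ((q.factorial : ℝ) * l.choose q) := by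
    have : 0 < (q.factorial : ℝ) * l.choose q := by positivity
    nlinarith
  calc (q.factorial : ℝ) * l * l = q.factorial * ((l : ℝ) * l) := by ring
    _ ≤ q.factorial * (4 * (q * ((q.factorial : ℝ) * l.choose q))) :=
        mul_le_mul_of_nonneg_left (by linarith) hf.le
    _ = _ := by ring

end MUBDx

theorem TENDA (q : ℕ) (hq : 2 ≤ q) : Tendsto (fun l : ℕ => muN (2 * q) l) atTop (𝓝 0) := by
  have h1 : Tendsto (fun l : ℕ => ((200 * √(4 * (q.factorial : ℝ) ^ 2 / l) : ℝ) : EReal)) atTop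
      (𝓝 0) := by
    have h2 : Tendsto (fun l : ℕ => (200 * √(4 * (q.factorial : ℝ) ^ 2 / l) : ℝ)) atTop (𝓝 0) := by
      have h3 := ((tendsto_const_div_atTop_nhds_zero_nat (4 * (q.factorial : ℝ) ^ 2)).sqrt).const_mul
        (200 : ℝ)
      simpa using h3
    have h4 := (EReal.tendsto_coe (a := 0)).mpr h2
    simpa using h4
  refine tendsto_of_tendsto_of_tendsto_of_le_of_le' tendsto_const_nhds h1 ?_ ?_
  · refine Eventually.of_forall fun l => ?_
    apply le_sInf
    rintro _ ⟨x, ⟨hx, _⟩, rfl⟩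
    exact EReal.coe_nonneg.mpr hx
  · filter_upwards [eventually_ge_atTop (2 * q)] with l hl
    refine le_trans (MUBD q l (by omega) (by omega)) ?_
    apply EReal.coe_le_coe_iff.mpr
    apply mul_le_mul_of_nonneg_left _ (by norm_num)
    exact Real.sqrt_le_sqrt (MUBDx.bd q l hq hl)

end KK14
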